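import Pool.Agent.Helper809.Cub.Defs

set_option autoImplicit false

namespace ChrRoots

open Polynomial

namespace J24A


theorem h845_dd0 (q : ℝ) : dd q 0 = 1 := by rw [dd]
theorem h845_dd1 (q : ℝ) : dd q 1 = -(15 / 2) * q := by
  rw [dd]
  simp [bet, h845_dd0]
  ring
theorem h845_dd2 (q : ℝ) : dd q 2 = ((q - 1) * (-(15 / 2)) * (-(15 / 2) * q) + (2 * q) * (-(3 / 2) * (7 * 11) / 2 * (-(15 / 2)))) / 2 := by
  rw [dd]
  simp [Fin.sum_univ_succ, bet, h845_dd0, h845_dd1]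
  ring

theorem h845_mom (k : ℕ) : mom 1 (k + 2) = (k + 1) * mom 1 k := by
  rw [mom]; ring
theorem h845_m0 : mom 1 0 = 1 := rfl
theorem h845_m1 : mom 1 1 = 0 := rfl
theorem h845_m2 : mom 1 2 = 1 := by rw [h845_mom 0, h845_m0]; norm_num
theorem h845_m3 : mom 1 3 = 0 := by rw [h845_mom 1, h845_m1]; norm_num
theorem h845_m4 : mom 1 4 = 3 := by rw [h845_mom 2, h845_m2]; norm_num
theorem h845_m5 : mom 1 5 = 0 := by rw [h845_mom 3, h845_m3]; norm_num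
theorem h845_m6 : mom 1 6 = 15 := by rw [h845_mom 4, h845_m4]; norm_num
theorem h845_m7 : mom 1 7 = 0 := by rw [h845_mom 5, h845_m5]; norm_num
theorem h845_m8 : mom 1 8 = 105 := by rw [h845_mom 6, h845_m6]; norm_num
theorem h845_m9 : mom 1 9 = 0 := by rw [h845_mom 7, h845_m7]; norm_num
theorem h845_m10 : mom 1 10 = 945 := by rw [h845_mom 8, h845_m8]; norm_num
theorem h845_m11 : mom 1 11 = 0 := by rw [h845_mom 9, h845_m9]; norm_num
theorem h845_m12 : mom 1 12 = 10395 := by rw [h845_mom 10, h845_m10]; norm_num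

theorem h845_mu0 (q : ℝ) (s : ℕ) : mu q s 0 = mom 1 s := by rw [mu]
theorem h845_mu1 (q : ℝ) (s : ℕ) : mu q s 1 = (q - 3) * mom 1 (s + 3) := by rw [mu]
theorem h845_mu2 (q : ℝ) (s : ℕ) : mu q s 2 = ((q - 3) * mu q (s + 3) 1 + 9 * (q - 1) * mu q (s + 4) 0) / 2 := by
  conv_lhs => rw [mu]
  norm_num
theorem h845_mu3 (q : ℝ) (s : ℕ) : mu q s 3 = ((q - 3) * mu q (s + 3) 2 + 9 * (q - 1) * mu q (s + 4) 1) / 3 := by
  conv_lhs => rw [mu]
  norm_num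
theorem h845_mu4 (q : ℝ) (s : ℕ) : mu q s 4 = ((q - 3) * mu q (s + 3) 3 + 9 * (q - 1) * mu q (s + 4) 2) / 4 := by
  conv_lhs => rw [mu]
  norm_num

theorem Sr_small : 0 ≤ 24 * Sr (44 / 15) 4 - 3 * (2 * Sr (44 / 15) 2) ^ 2 := by
  have e2 : Sr (44 / 15) 2 = ∑ k ∈ Finset.range 2, dd (44 / 15) k *
    ∑ s ∈ Finset.range (2 - 2 * k + 1),
      bin (1 - (44 / 15) / 2 - 3 * k) s * 6 ^ s * mu (44 / 15) s (2 - 2 * k - s) := rfl
  have e4 : Sr (44 / 15) 4 = ∑ k ∈ Finset.range 3, dd (44 / 15) k *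
    ∑ s ∈ Finset.range (4 - 2 * k + 1),
      bin (1 - (44 / 15) / 2 - 3 * k) s * 6 ^ s * mu (44 / 15) s (4 - 2 * k - s) := rfl
  rw [e2, e4]
  simp only [Finset.sum_range_succ, Finset.sum_range_zero, Nat.sub_self, Nat.sub_zero, Nat.mul_zero, Nat.mul_one,
    zero_add, Nat.cast_zero, Nat.cast_one, Nat.cast_ofNat, h845_dd0, h845_dd1, h845_dd2, bin]
  norm_num [Finset.sum_range_succ, h845_mu0, h845_mu1, h845_mu2, h845_mu3, h845_mu4, h845_m0, h845_m1, h845_m2, h845_m3, h845_m4,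
    h845_m5, h845_m6, h845_m7, h845_m8, h845_m9, h845_m10, h845_m11, h845_m12, bin, h845_dd0, h845_dd1, h845_dd2]



end J24A

end ChrRoots
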