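import Pool.Agent.Y781.CB.N.NumDefs

set_option autoImplicit false

namespace ChrRoots

open Polynomial

namespace NumA

namespace K3




/-- shifted `mu` -/
noncomputable def NN (q : ℝ) (s : ℕ) : ℕ → ℝ
  | 0 => 0
  | 1 => 0
  | (i + 2) => mu q s i

theorem NN_rec (q : ℝ) (s i : ℕ) :
    (i : ℝ) * NN q s (i + 2) = (q - 3) * NN q (s + 3) (i + 1) + 9 * (q - 1) * NN q (s + 4) i := by
  rcases i with _ | _ | i
  · simp [NN]
  · simp [NN, mu]
  · simp only [NN, mu]
    push_cast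
    have : (i : ℝ) + 2 ≠ 0 := by positivity
    have h2 : (i : ℝ) + 1 + 1 ≠ 0 := by positivity
    field_simp
    ring

theorem mom_rec (k : ℕ) : mom 1 (k + 2) = (k + 1) * mom 1 k := by
  rw [mom]; ring

theorem NN_B (q : ℝ) : ∀ j s : ℕ,
    NN q (s + 2) (j + 2) = (s + 1) * NN q s (j + 2) + 3 * (q - 3) * NN q (s + 3) (j + 1)
      + 18 * (q - 1) * NN q (s + 4) j := by
  intro j
  induction j using Nat.strong_induction_on with
  | _ j ih =>
    intro s
    rcases j with _ | _ | j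
    · simp only [NN, mu]
      rw [mom_rec]; ring
    · simp only [NN, mu]
      have h1 := mom_rec (s + 3)
      push_cast at h1
      rw [show s + 2 + 3 = s + 3 + 2 by ring, h1]; ring
    · have hne : ((j : ℝ) + 2) ≠ 0 := by positivity
      have r1 : ((j : ℝ) + 2) * NN q (s + 2) (j + 4) = (q - 3) * NN q (s + 5) (j + 3)
          + 9 * (q - 1) * NN q (s + 6) (j + 2) := by
        have := NN_rec q (s + 2) (j + 2); push_cast at this; exact this
      have r2 : ((j : ℝ) + 2) * NN q s (j + 4) = (q - 3) * NN q (s + 3) (j + 3)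
          + 9 * (q - 1) * NN q (s + 4) (j + 2) := by
        have := NN_rec q s (j + 2); push_cast at this; exact this
      have r3 : ((j : ℝ) + 1) * NN q (s + 3) (j + 3) = (q - 3) * NN q (s + 6) (j + 2)
          + 9 * (q - 1) * NN q (s + 7) (j + 1) := by
        have := NN_rec q (s + 3) (j + 1); push_cast at this; exact this
      have r4 : (j : ℝ) * NN q (s + 4) (j + 2) = (q - 3) * NN q (s + 7) (j + 1)
          + 9 * (q - 1) * NN q (s + 8) j := by
        have := NN_rec q (s + 4) j; push_cast at this; exact this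
      have i1 : NN q (s + 5) (j + 3) = ((s : ℝ) + 4) * NN q (s + 3) (j + 3)
          + 3 * (q - 3) * NN q (s + 6) (j + 2) + 18 * (q - 1) * NN q (s + 7) (j + 1) := by
        have := ih (j + 1) (by omega) (s + 3); push_cast at this
        rw [show (s : ℝ) + 3 + 1 = s + 4 by ring] at this; exact this
      have i2 : NN q (s + 6) (j + 2) = ((s : ℝ) + 5) * NN q (s + 4) (j + 2)
          + 3 * (q - 3) * NN q (s + 7) (j + 1) + 18 * (q - 1) * NN q (s + 8) j := by
        have := ih j (by omega) (s + 4); push_cast at this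
        rw [show (s : ℝ) + 4 + 1 = s + 5 by ring] at this; exact this
      change NN q (s + 2) (j + 4) = ((s : ℝ) + 1) * NN q s (j + 4) + 3 * (q - 3) * NN q (s + 3) (j + 3)
          + 18 * (q - 1) * NN q (s + 4) (j + 2)
      apply mul_left_cancel₀ hne
      linear_combination r1 + (q - 3) * i1 + 9 * (q - 1) * i2 - ((s : ℝ) + 1) * r2
        - 3 * (q - 3) * r3 - 18 * (q - 1) * r4

theorem NN_A (q : ℝ) (j : ℕ) :
    NN q 1 (j + 2) = 3 * (q - 3) * NN q 2 (j + 1) + 18 * (q - 1) * NN q 3 j := by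
  rcases j with _ | _ | j
  · simp [NN, mu, mom]
  · simp only [NN, mu]
    have h1 := mom_rec 2
    push_cast at h1
    rw [show 1 + 3 = 2 + 2 by ring, h1]; ring
  · have hne : ((j : ℝ) + 2) ≠ 0 := by positivity
    have r1 : ((j : ℝ) + 2) * NN q 1 (j + 4) = (q - 3) * NN q 4 (j + 3)
        + 9 * (q - 1) * NN q 5 (j + 2) := by
      have := NN_rec q 1 (j + 2); push_cast at this; exact this
    have r3 : ((j : ℝ) + 1) * NN q 2 (j + 3) = (q - 3) * NN q 5 (j + 2)
        + 9 * (q - 1) * NN q 6 (j + 1) := by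
      have := NN_rec q 2 (j + 1); push_cast at this; exact this
    have r4 : (j : ℝ) * NN q 3 (j + 2) = (q - 3) * NN q 6 (j + 1)
        + 9 * (q - 1) * NN q 7 j := by
      have := NN_rec q 3 j; push_cast at this; exact this
    have i1 : NN q 4 (j + 3) = 3 * NN q 2 (j + 3)
        + 3 * (q - 3) * NN q 5 (j + 2) + 18 * (q - 1) * NN q 6 (j + 1) := by
      have := NN_B q (j + 1) 2; push_cast at this
      rw [show (2 : ℝ) + 1 = 3 by norm_num] at this; exact this
    have i2 : NN q 5 (j + 2) = 4 * NN q 3 (j + 2)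
        + 3 * (q - 3) * NN q 6 (j + 1) + 18 * (q - 1) * NN q 7 j := by
      have := NN_B q j 3; push_cast at this
      rw [show (3 : ℝ) + 1 = 4 by norm_num] at this; exact this
    change NN q 1 (j + 4) = 3 * (q - 3) * NN q 2 (j + 3) + 18 * (q - 1) * NN q 3 (j + 2)
    apply mul_left_cancel₀ hne
    linear_combination r1 + (q - 3) * i1 + 9 * (q - 1) * i2
        - 3 * (q - 3) * r3 - 18 * (q - 1) * r4

theorem Ym_eq (j i : ℕ) : Ym j i = (-15) ^ i * i.factorial * NN (44 / 15) (2 * j - i) (i + 2) := rfl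

theorem Ym_zero (j : ℕ) : Ym j 0 = mom 1 (2 * j) := by
  simp [Ym, mu]

theorem Ym_rec (j i : ℕ) (hi : i ≤ 2 * j) :
    Ym (j + 1) i = 3 * (i : ℝ) * Ym (j + 1) (i - 1) +
      7830 * ((i : ℝ) * ((i : ℝ) - 1)) * Ym (j + 1) (i - 2) + (2 * (j : ℝ) + 1 - i) * Ym j i := by
  obtain ⟨s, hs⟩ : ∃ s, 2 * j = s + i := ⟨2 * j - i, by omega⟩
  have hs' : (s : ℝ) = 2 * j - i := by
    have : ((2 * j : ℕ) : ℝ) = ((s + i : ℕ) : ℝ) := by rw [hs]
    push_cast at this; linarith
  have hB := NN_B (44 / 15) i s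
  have e1 : 2 * (j + 1) - i = s + 2 := by omega
  have e2 : 2 * j - i = s := by omega
  rcases i with _ | _ | i
  · rw [Ym_eq, Ym_eq j 0, e1, e2, hB]
    simp only [NN, hs']
    push_cast
    ring
  · have e3 : 2 * (j + 1) - (0 + 1 - 1) = s + 3 := by omega
    rw [Ym_eq, Ym_eq j (0 + 1), Ym_eq (j + 1) (0 + 1 - 1), e1, e2, e3, hB]
    simp only [NN, hs']
    simp
    ring
  · have e3 : 2 * (j + 1) - (i + 1 + 1 - 1) = s + 3 := by omega
    have e4 : 2 * (j + 1) - (i + 1 + 1 - 2) = s + 4 := by omega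
    rw [Ym_eq, Ym_eq j (i + 1 + 1), Ym_eq (j + 1) (i + 1 + 1 - 1), Ym_eq (j + 1) (i + 1 + 1 - 2),
      e1, e2, e3, e4, hB]
    simp only [hs', Nat.add_sub_cancel, show i + 1 + 1 - 2 = i by omega]
    rw [Nat.factorial_succ (i + 1), Nat.factorial_succ i]
    push_cast
    rw [pow_succ, pow_succ, show i + 1 + 1 + 1 = i + 1 + 2 by ring, show i + 1 + 1 = i + 2 by ring]
    ring

theorem Ym_last (j : ℕ) :
    Ym (j + 1) (2 * j + 1) = 3 * (2 * (j : ℝ) + 1) * Ym (j + 1) (2 * j) +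
      7830 * ((2 * (j : ℝ) + 1) * (2 * (j : ℝ))) * Ym (j + 1) (2 * j - 1) := by
  have hA := NN_A (44 / 15) (2 * j + 1)
  have e1 : 2 * (j + 1) - (2 * j + 1) = 1 := by omega
  have e2 : 2 * (j + 1) - (2 * j) = 2 := by omega
  rcases j with _ | j
  · rw [Ym_eq, Ym_eq _ (2 * 0), e1, e2, hA]
    simp [NN]
    ring
  · have e3 : 2 * (j + 1 + 1) - (2 * (j + 1) - 1) = 3 := by omega
    rw [Ym_eq, Ym_eq _ (2 * (j + 1)), Ym_eq _ (2 * (j + 1) - 1), e1, e2, e3, hA]
    rw [show 2 * (j + 1) - 1 + 2 = 2 * (j + 1) + 1 by omega,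
      show 2 * (j + 1) + 1 + 1 = 2 * (j + 1) + 2 by omega]
    obtain ⟨k, hk⟩ : ∃ k, 2 * (j + 1) = k + 1 := ⟨2 * j + 1, by ring⟩
    have hk' : (k : ℝ) = 2 * j + 1 := by
      have : ((2 * (j + 1) : ℕ) : ℝ) = ((k + 1 : ℕ) : ℝ) := by rw [hk]
      push_cast at this; linarith
    rw [hk, Nat.add_sub_cancel, Nat.factorial_succ (k + 1), Nat.factorial_succ k]
    push_cast
    rw [pow_succ, pow_succ, hk']
    ring

theorem Ym_top (j : ℕ) (hj : 1 ≤ j) :
    Ym j (2 * j) = Ym (j + 1) (2 * j - 1) + 3915 * (2 * (j : ℝ) - 1) * Ym (j + 1) (2 * j - 2) := by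
  obtain ⟨j, rfl⟩ : ∃ k, j = k + 1 := ⟨j - 1, by omega⟩
  have h0 : 2 * (j + 1) - 2 * (j + 1) = 0 := by omega
  have h1 : 2 * (j + 1 + 1) - (2 * (j + 1) - 1) = 3 := by omega
  have h2 : 2 * (j + 1 + 1) - (2 * (j + 1) - 2) = 4 := by omega
  rw [Ym_eq, Ym_eq _ (2 * (j + 1) - 1), Ym_eq _ (2 * (j + 1) - 2), h0, h1, h2]
  have hr := NN_rec (44 / 15) 0 (2 * (j + 1))
  rw [show 2 * (j + 1) - 1 + 2 = 2 * (j + 1) + 1 by omega,
    show 2 * (j + 1) - 2 + 2 = 2 * (j + 1) by omega]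
  rw [show 2 * (j + 1) - 1 = 2 * j + 1 by omega, show 2 * (j + 1) - 2 = 2 * j by omega]
  rw [show (2 * (j + 1)).factorial = (2 * (j + 1)) * ((2 * j + 1) * (2 * j).factorial) by
    rw [show 2 * (j + 1) = 2 * j + 1 + 1 by ring, Nat.factorial_succ, Nat.factorial_succ]]
  rw [show (2 * j + 1).factorial = (2 * j + 1) * (2 * j).factorial from Nat.factorial_succ _]
  rw [show ((-15 : ℝ)) ^ (2 * (j + 1)) = (-15) ^ (2 * j) * 225 by
    rw [show 2 * (j + 1) = 2 * j + 2 by ring, pow_add]; norm_num]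
  rw [pow_succ]
  push_cast at *
  linear_combination ((-15 : ℝ)) ^ (2 * j) * 225 * ((2 * j + 1) * (2 * j).factorial) * hr

theorem Ym_one_zero : Ym 1 0 = 1 := by
  simp [Ym, mu, mom]

theorem Ym_one_one : Ym 1 1 = 3 := by
  simp [Ym, mu, mom]
  norm_num



end K3

end NumA

end ChrRoots
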