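import Pool.Agent.Y781.CB.N.NumDefs

set_option autoImplicit false

namespace ChrRoots

open Polynomial

namespace NumA

namespace K4




private theorem rowF_nil (E i y1 y2 : ℕ) : rowF E [] i y1 y2 =
    [step E i y1 y2 (y1 + 3915 * (Nat.pred i) * y2),
      step E (i + 1) (step E i y1 y2 (y1 + 3915 * (Nat.pred i) * y2)) y1 0] := rfl

private theorem rowF_cons (E o : ℕ) (os : List ℕ) (i y1 y2 : ℕ) : rowF E (o :: os) i y1 y2 =
    step E i y1 y2 o :: rowF E os (i + 1) (step E i y1 y2 o) y1 := rfl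

private theorem step_def (E i y1 y2 o : ℕ) :
    step E i y1 y2 o = 3 * i * y1 + (7830 * (i * (i - 1)) * y2 + (E - i) * o) := rfl

private theorem step_cast (j : ℕ)
    (hrec : ∀ i : ℕ, i ≤ 2 * j →
      Ym (j + 1) i = 3 * (i : ℝ) * Ym (j + 1) (i - 1) +
      7830 * ((i : ℝ) * ((i : ℝ) - 1)) * Ym (j + 1) (i - 2) + (2 * (j : ℝ) + 1 - i) * Ym j i)
    (i y1 y2 o : ℕ) (hi : i ≤ 2 * j) (h1 : i = 0 ∨ (y1 : ℝ) = Ym (j + 1) (i - 1))
    (h2 : i ≤ 1 ∨ (y2 : ℝ) = Ym (j + 1) (i - 2)) (ho : (o : ℝ) = Ym j i) :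
    ((step (2 * j + 1) i y1 y2 o : ℕ) : ℝ) = Ym (j + 1) i := by
  rw [step_def, hrec i hi, ← ho]
  push_cast [Nat.cast_sub (show i ≤ 2 * j + 1 by omega)]
  rcases Nat.lt_or_ge i 2 with h | h
  · interval_cases i
    · simp
    · rcases h1 with h1 | h1
      · omega
      · rw [← h1]; simp
  · have e1 : ((i - 1 : ℕ) : ℝ) = (i : ℝ) - 1 := by
      rw [Nat.cast_sub (by omega)]; simp
    rw [e1]
    rcases h1 with h1 | h1
    · omega
    rcases h2 with h2 | h2
    · omega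
    rw [← h1, ← h2]
    ring

private theorem rowF_gen (j : ℕ) (hj : 1 ≤ j)
    (hrec : ∀ i : ℕ, i ≤ 2 * j →
      Ym (j + 1) i = 3 * (i : ℝ) * Ym (j + 1) (i - 1) +
      7830 * ((i : ℝ) * ((i : ℝ) - 1)) * Ym (j + 1) (i - 2) + (2 * (j : ℝ) + 1 - i) * Ym j i)
    (hlast : Ym (j + 1) (2 * j + 1) = 3 * (2 * (j : ℝ) + 1) * Ym (j + 1) (2 * j) +
      7830 * ((2 * (j : ℝ) + 1) * (2 * (j : ℝ))) * Ym (j + 1) (2 * j - 1))
    (htop : Ym j (2 * j) =
      Ym (j + 1) (2 * j - 1) + 3915 * (2 * (j : ℝ) - 1) * Ym (j + 1) (2 * j - 2))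
    (old : List ℕ) : ∀ (l i y1 y2 : ℕ),
      old.map (Nat.cast : ℕ → ℝ) = (List.range' i l).map (Ym j) → i + l = 2 * j →
      (i = 0 ∨ (y1 : ℝ) = Ym (j + 1) (i - 1)) → (i ≤ 1 ∨ (y2 : ℝ) = Ym (j + 1) (i - 2)) →
      (rowF (2 * j + 1) old i y1 y2).map (Nat.cast : ℕ → ℝ) =
        (List.range' i (l + 2)).map (Ym (j + 1)) := by
  induction old with
  | nil =>
    intro l i y1 y2 h hil h1 h2
    have hl : l = 0 := by
      have := congrArg List.length h
      simpa using this.symm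
    subst hl
    have hi : i = 2 * j := by omega
    subst hi
    rcases h1 with h1 | h1
    · omega
    rcases h2 with h2 | h2
    · omega
    have hp : ((Nat.pred (2 * j) : ℕ) : ℝ) = 2 * (j : ℝ) - 1 := by
      rw [Nat.pred_eq_sub_one, Nat.cast_sub (by omega)]; push_cast; ring
    have ht : ((y1 + 3915 * (Nat.pred (2 * j)) * y2 : ℕ) : ℝ) = Ym j (2 * j) := by
      rw [htop, ← h1, ← h2]
      push_cast
      rw [hp]
    have e1 := step_cast j hrec (2 * j) y1 y2 (y1 + 3915 * (Nat.pred (2 * j)) * y2) le_rfl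
      (Or.inr h1) (Or.inr h2) ht
    have e2 : ((step (2 * j + 1) (2 * j + 1)
        (step (2 * j + 1) (2 * j) y1 y2 (y1 + 3915 * (Nat.pred (2 * j)) * y2)) y1 0 : ℕ) : ℝ)
        = Ym (j + 1) (2 * j + 1) := by
      rw [step_def, hlast, ← h1]
      push_cast
      rw [e1]
      ring
    rw [rowF_nil, List.map_cons, List.map_cons, List.map_nil, e1, e2]
    rfl
  | cons o os ih =>
    intro l i y1 y2 h hil h1 h2
    obtain ⟨l', rfl⟩ : ∃ l', l = l' + 1 := by
      refine ⟨l - 1, ?_⟩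
      have := congrArg List.length h
      simp at this
      omega
    rw [List.range'_succ, List.map_cons, List.map_cons, List.cons.injEq] at h
    obtain ⟨ho, hos⟩ := h
    have e1 := step_cast j hrec i y1 y2 o (by omega) h1 h2 ho
    have e2 := ih l' (i + 1) (step (2 * j + 1) i y1 y2 o) y1 hos (by omega)
      (Or.inr (by rw [e1, Nat.add_sub_cancel])) (by
        rcases h1 with h1 | h1
        · left; omega
        · right; rw [h1]; congr 1)
    rw [rowF_cons, List.map_cons, e1, e2, show l' + 1 + 2 = (l' + 2) + 1 by ring,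
      List.range'_succ (s := i) (n := l' + 2), List.map_cons]

theorem rowF_spec (j : ℕ) (hj : 1 ≤ j) (row : List ℕ)
    (hrec : ∀ i : ℕ, i ≤ 2 * j →
      Ym (j + 1) i = 3 * (i : ℝ) * Ym (j + 1) (i - 1) +
      7830 * ((i : ℝ) * ((i : ℝ) - 1)) * Ym (j + 1) (i - 2) + (2 * (j : ℝ) + 1 - i) * Ym j i)
    (hlast : Ym (j + 1) (2 * j + 1) = 3 * (2 * (j : ℝ) + 1) * Ym (j + 1) (2 * j) +
      7830 * ((2 * (j : ℝ) + 1) * (2 * (j : ℝ))) * Ym (j + 1) (2 * j - 1))
    (htop : Ym j (2 * j) =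
      Ym (j + 1) (2 * j - 1) + 3915 * (2 * (j : ℝ) - 1) * Ym (j + 1) (2 * j - 2))
    (h : row.map (Nat.cast : ℕ → ℝ) = (List.range (2 * j)).map (Ym j)) :
    (rowF (Nat.succ (Nat.mul 2 j)) row 0 0 0).map (Nat.cast : ℕ → ℝ) =
      (List.range (2 * (j + 1))).map (Ym (j + 1)) := by
  have := rowF_gen j hj hrec hlast htop row (2 * j) 0 0 0
    (by rw [h, List.range_eq_range']) (by omega) (Or.inl rfl) (Or.inl (by omega))
  rw [List.range_eq_range']
  exact this



end K4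

end NumA

end ChrRoots
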