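import Pool.Agent.Y781.CB.N.NumDefs

set_option autoImplicit false

namespace ChrRoots

open Polynomial

namespace NumA

namespace K5




theorem horner_nil (F J : ℕ) (new : List ℕ) (i c B y1 y2 : ℕ) :
    horner F J [] new i c B y1 y2 = B * (F - 90 * i) + c * (y1 + 3915 * (i - 1) * y2) := rfl

theorem horner_cons (F J y : ℕ) (row : List ℕ) (z : ℕ) (new : List ℕ) (i c B y1 y2 : ℕ) :
    horner F J (y :: row) (z :: new) i c B y1 y2 =
      horner F J row new (i + 1) (c * (J - i) / (i + 1)) (B * (F - 90 * i) + c * y) z y1 := rfl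

theorem horner_aux (m j : ℕ) (hj : 1 ≤ j) (hjm : j ≤ m)
    (htop : Ym j (2 * j) =
      Ym (j + 1) (2 * j - 1) + 3915 * (2 * (j : ℝ) - 1) * Ym (j + 1) (2 * j - 2))
    (row : List ℕ) : ∀ (new : List ℕ) (i c B y1 y2 : ℕ), i + row.length = 2 * j →
    row.map (Nat.cast : ℕ → ℝ) = (List.range' i row.length).map (Ym j) →
    new.map (Nat.cast : ℕ → ℝ) = (List.range' i (row.length + 2)).map (Ym (j + 1)) →
    c = (2 * j).choose i → (1 ≤ i → (y1 : ℝ) = Ym (j + 1) (i - 1)) →
    (2 ≤ i → (y2 : ℝ) = Ym (j + 1) (i - 2)) →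
    (horner (42 + 270 * m - 90 * j) (2 * j) row new i c B y1 y2 : ℝ) =
      B * ∏ t ∈ Finset.range (2 * j - i + 1), (42 + 270 * ((m : ℝ) - j) + 90 * t) +
      ∑ i' ∈ Finset.Ico i (2 * j + 1), ((2 * j).choose i' : ℝ) * Ym j i' *
        ∏ t ∈ Finset.range (2 * j - i'), (42 + 270 * ((m : ℝ) - j) + 90 * t) := by
  induction row with
  | nil =>
    intro new i c B y1 y2 hi _ _ hc hy1 hy2
    simp only [List.length_nil, add_zero] at hi
    subst hi
    rw [horner_nil]
    have h1 := hy1 (by omega)
    have h2 := hy2 (by omega)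
    have e1 : ((42 + 270 * m - 90 * j - 90 * (2 * j) : ℕ) : ℝ) = 42 + 270 * ((m : ℝ) - j) := by
      have : 42 + 270 * m - 90 * j - 90 * (2 * j) = 42 + 270 * (m - j) := by omega
      rw [this]
      push_cast [Nat.cast_sub hjm]
      ring
    have e2 : ((2 * j - 1 : ℕ) : ℝ) = 2 * (j : ℝ) - 1 := by
      have : 1 ≤ 2 * j := by omega
      push_cast [Nat.cast_sub this]
      ring
    have e3 : Finset.Ico (2 * j) (2 * j + 1) = {2 * j} := by
      ext x
      simp only [Finset.mem_Ico, Finset.mem_singleton]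
      omega
    rw [e3, Finset.sum_singleton, Nat.sub_self, Finset.prod_range_zero, zero_add,
      Finset.prod_range_one, hc, Nat.choose_self]
    push_cast
    rw [e1, e2, h1, h2, htop]
    push_cast
    ring
  | cons y row ih =>
    intro new i c B y1 y2 hi hrow hnew hc hy1 hy2
    simp only [List.length_cons] at hi hrow hnew
    cases new with
    | nil => simp [List.range'_succ] at hnew
    | cons z new' =>
      rw [List.range'_succ, List.map_cons, List.map_cons, List.cons.injEq] at hrow
      have e0 : row.length + 1 + 2 = (row.length + 2) + 1 := by omega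
      rw [e0, List.range'_succ, List.map_cons, List.map_cons, List.cons.injEq] at hnew
      rw [horner_cons]
      have hile : i < 2 * j := by omega
      have hc' : c * (2 * j - i) / (i + 1) = (2 * j).choose (i + 1) := by
        rw [hc, ← Nat.choose_succ_right_eq]
        exact Nat.mul_div_cancel _ (Nat.succ_pos i)
      rw [ih new' (i + 1) _ _ z y1 (by omega) hrow.2 hnew.2 hc' (fun _ => by
          rw [Nat.add_sub_cancel]; exact hnew.1)
        (fun h => by
          have : i + 1 - 2 = i - 1 := by omega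
          rw [this]
          exact hy1 (by omega))]
      have e1 : ((42 + 270 * m - 90 * j - 90 * i : ℕ) : ℝ)
          = 42 + 270 * ((m : ℝ) - j) + 90 * ((2 * j - i : ℕ) : ℝ) := by
        have : 42 + 270 * m - 90 * j - 90 * i = 42 + 270 * (m - j) + 90 * (2 * j - i) := by omega
        rw [this]
        push_cast [Nat.cast_sub hjm]
        ring
      have e2 : 2 * j - (i + 1) + 1 = 2 * j - i := by omega
      have e3 : ∑ i' ∈ Finset.Ico i (2 * j + 1), ((2 * j).choose i' : ℝ) * Ym j i' *
          ∏ t ∈ Finset.range (2 * j - i'), (42 + 270 * ((m : ℝ) - j) + 90 * t)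
          = ((2 * j).choose i : ℝ) * Ym j i *
            ∏ t ∈ Finset.range (2 * j - i), (42 + 270 * ((m : ℝ) - j) + 90 * t) +
            ∑ i' ∈ Finset.Ico (i + 1) (2 * j + 1), ((2 * j).choose i' : ℝ) * Ym j i' *
          ∏ t ∈ Finset.range (2 * j - i'), (42 + 270 * ((m : ℝ) - j) + 90 * t) := by
        rw [Finset.sum_eq_sum_Ico_succ_bot (by omega)]
      rw [e3, e2, Finset.prod_range_succ _ (2 * j - i), ← e1]
      push_cast
      rw [hrow.1, hc]
      ring

theorem horner_spec (m j : ℕ) (hj : 1 ≤ j) (hjm : j ≤ m) (row new : List ℕ)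
    (htop : Ym j (2 * j) =
      Ym (j + 1) (2 * j - 1) + 3915 * (2 * (j : ℝ) - 1) * Ym (j + 1) (2 * j - 2))
    (h : row.map (Nat.cast : ℕ → ℝ) = (List.range (2 * j)).map (Ym j))
    (h' : new.map (Nat.cast : ℕ → ℝ) = (List.range (2 * (j + 1))).map (Ym (j + 1))) :
    (horner (Nat.sub (Nat.add 42 (Nat.mul 270 m)) (Nat.mul 90 j)) (Nat.mul 2 j) row new 0 1 0 0 0 : ℝ)
      = Rm m j := by
  have hl : row.length = 2 * j := by
    have := congrArg List.length h
    simpa using this
  have h1 := horner_aux m j hj hjm htop row new 0 1 0 0 0 (by omega)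
    (by rw [hl, ← List.range_eq_range']; exact h)
    (by
      rw [hl, ← List.range_eq_range']
      exact h')
    (by simp) (fun h => absurd h (by norm_num)) (fun h => absurd h (by norm_num))
  have h2 : horner (Nat.sub (Nat.add 42 (Nat.mul 270 m)) (Nat.mul 90 j)) (Nat.mul 2 j)
      row new 0 1 0 0 0 = horner (42 + 270 * m - 90 * j) (2 * j) row new 0 1 0 0 0 := rfl
  rw [h2, h1]
  unfold Rm
  rw [Nat.cast_zero, zero_mul, zero_add, Finset.range_eq_Ico]



end K5

end NumA

end ChrRoots
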