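import Pool.Agent.Y781.CB.N.NumDefs

set_option autoImplicit false

namespace ChrRoots

open Polynomial

namespace NumA

namespace K6




theorem mainLoop_nil (m j : ℕ) (row : List ℕ) (A B : ℕ) :
    mainLoop m [] j row A B = Nat.ble (Nat.succ A) B := rfl

theorem mainLoop_cons (m d : ℕ) (ds : List ℕ) (j : ℕ) (row : List ℕ) (A B : ℕ) :
    mainLoop m (d :: ds) j row A B =
      mainLoop m ds (j + 1) (rowF (Nat.succ (Nat.mul 2 j)) row 0 0 0)
        ((2 * j) * (2 * j - 1) * B + 8 ^ j * d *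
              (horner (Nat.sub (Nat.add 42 (Nat.mul 270 m)) (Nat.mul 90 j)) (Nat.mul 2 j) row
                (rowF (Nat.succ (Nat.mul 2 j)) row 0 0 0) 0 1 0 0 0))
        ((2 * j) * (2 * j - 1) * A) := rfl

theorem split_list (k : ℕ) (d : ℕ) (ds : List ℕ)
    (h : (d :: ds).map (Nat.cast : ℕ → ℝ) = ((List.range (k + 1)).map dh).reverse) :
    (d : ℝ) = dh k ∧ ds.map (Nat.cast : ℕ → ℝ) = ((List.range k).map dh).reverse := by
  rw [List.range_succ, List.map_append, List.reverse_append] at h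
  simp only [List.map_cons, List.map_nil, List.reverse_cons, List.reverse_nil, List.nil_append,
    List.cons_append, List.cons.injEq] at h
  exact h

theorem loop_spec (m : ℕ)
    (hrow : ∀ (j : ℕ) (row : List ℕ), 1 ≤ j →
      row.map (Nat.cast : ℕ → ℝ) = (List.range (2 * j)).map (Ym j) →
      (rowF (Nat.succ (Nat.mul 2 j)) row 0 0 0).map (Nat.cast : ℕ → ℝ) =
      (List.range (2 * (j + 1))).map (Ym (j + 1)))
    (hhorner : ∀ (j : ℕ) (row new : List ℕ), 1 ≤ j → j ≤ m →
      row.map (Nat.cast : ℕ → ℝ) = (List.range (2 * j)).map (Ym j) →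
      new.map (Nat.cast : ℕ → ℝ) = (List.range (2 * (j + 1))).map (Ym (j + 1)) →
      (horner (Nat.sub (Nat.add 42 (Nat.mul 270 m)) (Nat.mul 90 j)) (Nat.mul 2 j) row new 0 1 0 0 0 : ℝ)
      = Rm m j) (ds : List ℕ) :
    ∀ (j : ℕ) (row : List ℕ) (A B : ℕ), j ≤ m →
      ds.map (Nat.cast : ℕ → ℝ) = ((List.range (m - j)).map dh).reverse →
      row.map (Nat.cast : ℕ → ℝ) = (List.range (2 * (j + 1))).map (Ym (j + 1)) →
      (A : ℝ) - B = Vm m j → mainLoop m ds (j + 1) row A B = true → Vm m m < 0 := by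
  induction ds with
  | nil =>
    intro j row A B hj hds _ hV h
    have hl := congrArg List.length hds
    simp at hl
    have hjm : j = m := by omega
    rw [mainLoop_nil] at h
    have h1 : A + 1 ≤ B := Nat.le_of_ble_eq_true h
    rw [hjm] at hV
    rw [← hV]
    have h2 : (A : ℝ) + 1 ≤ B := by exact_mod_cast h1
    linarith
  | cons d ds ih =>
    intro j row A B hj hds hr hV h
    have hjm : j < m := by
      by_contra hcon
      have hl := congrArg List.length hds
      simp at hl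
      omega
    have hk : m - j = (m - (j + 1)) + 1 := by omega
    rw [hk] at hds
    obtain ⟨hd, hds'⟩ := split_list _ _ _ hds
    rw [mainLoop_cons] at h
    have hr' := hrow (j + 1) row (by omega) hr
    refine ih (j + 1) _ _ _ (by omega) hds' hr' ?_ h
    have hh := hhorner (j + 1) row _ (by omega) (by omega) hr hr'
    have e1 : ((2 * (j + 1) - 1 : ℕ) : ℝ) = 2 * ((j : ℝ) + 1) - 1 := by
      rw [Nat.cast_sub (by omega)]
      push_cast
      ring
    rw [Nat.cast_add, Nat.cast_mul (2 * (j + 1) * (2 * (j + 1) - 1)) B,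
      Nat.cast_mul (8 ^ (j + 1) * d), hh, Nat.cast_mul (8 ^ (j + 1)) d, hd,
      Nat.cast_mul (2 * (j + 1) * (2 * (j + 1) - 1)) A, Nat.cast_mul (2 * (j + 1)), e1]
    show _ = 8 ^ (j + 1) * Rm m (j + 1) * dh (m - (j + 1)) -
      (2 * ((j : ℝ) + 1)) * (2 * ((j : ℝ) + 1) - 1) * Vm m j
    rw [← hV]
    push_cast
    ring


theorem start_spec (m : ℕ) (ds : List ℕ)
    (hrow : ∀ (j : ℕ) (row : List ℕ), 1 ≤ j →
      row.map (Nat.cast : ℕ → ℝ) = (List.range (2 * j)).map (Ym j) →
      (rowF (Nat.succ (Nat.mul 2 j)) row 0 0 0).map (Nat.cast : ℕ → ℝ) =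
      (List.range (2 * (j + 1))).map (Ym (j + 1)))
    (hhorner : ∀ (j : ℕ) (row new : List ℕ), 1 ≤ j → j ≤ m →
      row.map (Nat.cast : ℕ → ℝ) = (List.range (2 * j)).map (Ym j) →
      new.map (Nat.cast : ℕ → ℝ) = (List.range (2 * (j + 1))).map (Ym (j + 1)) →
      (horner (Nat.sub (Nat.add 42 (Nat.mul 270 m)) (Nat.mul 90 j)) (Nat.mul 2 j) row new 0 1 0 0 0 : ℝ)
      = Rm m j)
    (h10 : Ym 1 0 = 1) (h11 : Ym 1 1 = 3)
    (hds : ds.map (Nat.cast : ℕ → ℝ) = ((List.range (m + 1)).map dh).reverse)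
    (h : start m ds = true) : Vm m m < 0 := by
  cases ds with
  | nil =>
    have hl := congrArg List.length hds
    simp at hl
  | cons d0 ds' =>
    obtain ⟨hd, hds'⟩ := split_list _ _ _ hds
    have h' : mainLoop m ds' (0 + 1) [1, 3] d0 0 = true := h
    refine loop_spec m hrow hhorner ds' 0 [1, 3] d0 0 (Nat.zero_le _) hds' ?_ ?_ h'
    · have : List.range (2 * (0 + 1)) = [0, 1] := rfl
      rw [this]
      simp [h10, h11]
    · rw [hd]
      show dh m - ((0 : ℕ) : ℝ) = dh m
      simp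



end K6

end NumA

end ChrRoots
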