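import Pool.Agent.Y781.CB.N.NumDefs

set_option autoImplicit false

namespace ChrRoots

open Polynomial

namespace NumA

namespace K1





theorem blist_succ (m k b : ℕ) : blist (m + 1) k b =
    (bnum k b / (k + 1)) :: blist m (k + 1) (bnum k b / (k + 1)) := rfl

theorem bchk_cons (b' : ℕ) (bs : List ℕ) (k b : ℕ) : bchk (b' :: bs) k b =
    (Nat.beq ((k + 1) * b') (bnum k b) && bchk bs (k + 1) b') := rfl

theorem kb_cons (b : ℕ) (bs : List ℕ) (k : ℕ) : kb (b :: bs) k = (k * b) :: kb bs (k + 1) := rfl

theorem bnum_eq (k b : ℕ) : bnum k b = 2700 * ((6 * k + 1) * (6 * k + 5)) * b := rfl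

theorem blist_length (m k b : ℕ) : (blist m k b).length = m := by
  induction m generalizing k b with
  | zero => rfl
  | succ m ih => rw [blist_succ, List.length_cons, ih]

theorem bh_succ (k : ℕ) : bh (k + 1) * (k + 1) = 2700 * ((6 * k + 1) * (6 * k + 5)) * bh k := by
  unfold bh
  rw [pow_succ]
  have : bet (k + 1) = - (3 / 2) * (6 * k + 1) * (6 * k + 5) / (k + 1) * bet k := rfl
  rw [this]
  have h0 : (k : ℝ) + 1 ≠ 0 := by positivity
  field_simp
  ring

theorem bchk_gen (bs : List ℕ) (k b : ℕ) (h : bchk bs k b = true) (hb : (b : ℝ) = bh k) :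
    bs.map (Nat.cast : ℕ → ℝ) = (List.range' (k + 1) bs.length).map bh := by
  induction bs generalizing k b with
  | nil => rfl
  | cons b' bs ih =>
    rw [bchk_cons, Bool.and_eq_true] at h
    have h1 : (k + 1) * b' = bnum k b := Nat.eq_of_beq_eq_true h.1
    have h2 : (b' : ℝ) = bh (k + 1) := by
      have h3 : ((k : ℝ) + 1) * b' = 2700 * ((6 * k + 1) * (6 * k + 5)) * b := by
        have := congrArg (Nat.cast : ℕ → ℝ) h1
        rw [bnum_eq] at this
        push_cast at this
        exact this
      have h4 := bh_succ k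
      rw [← hb, ← h3] at h4
      have h0 : (k : ℝ) + 1 ≠ 0 := by positivity
      have h5 : bh (k + 1) * ((k : ℝ) + 1) = b' * ((k : ℝ) + 1) := by rw [h4]; ring
      exact (mul_right_cancel₀ h0 h5).symm
    have h6 := ih (k + 1) b' h.2 h2
    rw [List.length_cons, List.range'_succ, List.map_cons, List.map_cons, h6, h2]

theorem bchk_spec (bs : List ℕ) (h : bchk bs 0 1 = true) :
    bs.map (Nat.cast : ℕ → ℝ) = (List.range' 1 bs.length).map bh := by
  apply bchk_gen bs 0 1 h
  unfold bh bet
  simp

theorem kb_spec (bs : List ℕ) (k : ℕ) (f : ℕ → ℝ)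
    (h : bs.map (Nat.cast : ℕ → ℝ) = (List.range' k bs.length).map f) :
    (kb bs k).map (Nat.cast : ℕ → ℝ) = (List.range' k bs.length).map (fun t : ℕ => (t : ℝ) * f t) := by
  induction bs generalizing k with
  | nil => rfl
  | cons b bs ih =>
    rw [List.length_cons, List.range'_succ, List.map_cons, List.map_cons] at h
    rw [List.cons.injEq] at h
    rw [kb_cons, List.length_cons, List.range'_succ, List.map_cons, List.map_cons, ih (k + 1) h.2]
    rw [← h.1]
    push_cast
    rfl


end K1

end NumA

end ChrRoots
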